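import Pool.Agent.Helper96.Ab.Local
import Pool.Agent.Helper8.Abund.Fibre

/-! Global statements for the normal version. -/

open scoped Manifold ContDiff ENNReal Topology
open MeasureTheory Filter
open Pool.Agent.Helper16.Abund

namespace Pool.Agent.Helper96.Ab

universe u

variable {n : ℕ} {X M : Type u} [TopologicalSpace X] [TopologicalSpace M]
    [ChartedSpace (Fin n → ℂ) M] {j : M → X}

theorem IsNormalSpace.neBot (hN : IsNormalSpace n j) (x : X) : (comap j (𝓝 x)).NeBot := by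
  rw [comap_neBot_iff]
  intro t ht
  obtain ⟨y, hy⟩ := hN.denseRange.exists_mem_open isOpen_interior
    ⟨x, mem_interior_iff_mem_nhds.2 ht⟩
  exact ⟨y, interior_subset hy⟩

theorem semiample_of_pointwise [CompactSpace X]
    (h : ∀ x : X, ∃ ℓ : ℕ, 1 ≤ ℓ ∧ ∃ s : M → ℂ, IsPluriForm n M ℓ s ∧
      ∀ᶠ z in comap j (𝓝 x), s z ≠ 0) : SemiampleK n j := by
  classical
  choose ℓ hℓ c hc hcx using h
  have hV : ∀ x, ∃ V : Set X, V ∈ 𝓝 x ∧ IsOpen V ∧ ∀ z, j z ∈ V → c x z ≠ 0 := by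
    intro x
    have := hcx x
    rw [Filter.eventually_comap] at this
    obtain ⟨V, hV, hVo, hxV⟩ := _root_.mem_nhds_iff.1 this
    exact ⟨V, hVo.mem_nhds hxV, hVo, fun z hz => hV hz z rfl⟩
  choose V hVn hVo hVc using hV
  obtain ⟨t, ht⟩ := CompactSpace.elim_nhds_subcover V hVn
  refine ⟨∏ x ∈ t, ℓ x, Finset.one_le_prod' fun x _ => hℓ x, ?_⟩
  intro y
  have hy : y ∈ ⋃ x ∈ t, V x := by rw [ht]; trivial
  obtain ⟨x, hxt, hxy⟩ : ∃ x ∈ t, y ∈ V x := by simpa using hy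
  refine ⟨fun y => c x y ^ (∏ x' ∈ t.erase x, ℓ x'), ?_, ?_⟩
  · rw [← Finset.mul_prod_erase t ℓ hxt]
    exact (hc x).pow _
  · have : j ⁻¹' (V x) ∈ comap j (𝓝 y) := preimage_mem_comap ((hVo x).mem_nhds hxy)
    filter_upwards [this] with z hz
    exact pow_ne_zero _ (hVc x z hz)

/-- a form without zeros near `x` satisfies the nonvanishing condition for the identity covering -/
theorem IsNormalSpace.nonzeroAt_id (hN : IsNormalSpace n j) {m : ℕ} (hm : 1 ≤ m) {s : M → ℂ}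
    (hs : IsPluriForm n M m s) {x : X} (h : ∀ᶠ z in comap j (𝓝 x), s z ≠ 0) :
    NonzeroAt n j (id : M → M) m s x := by
  rw [Filter.eventually_comap] at h
  obtain ⟨V, hV, hVo, hxV⟩ := _root_.mem_nhds_iff.1 h
  have := hN.neBot x
  refine ⟨m, V, s, 1, hm, hxV, ⟨hVo, pluriForm_on hs _, fun z hz => hV hz z rfl⟩, one_pos, ?_⟩
  refine Filter.Eventually.frequently (Filter.Eventually.of_forall fun z => ⟨z, rfl, ?_⟩)
  rw [jac_id, one_pow, div_one, one_mul]

theorem isLocalDiffeomorph_id [IsManifold 𝓘(ℂ, Fin n → ℂ) ω M] :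
    IsLocalDiffeomorph 𝓘(ℂ, Fin n → ℂ) 𝓘(ℂ, Fin n → ℂ) ω (id : M → M) :=
  (Diffeomorph.refl 𝓘(ℂ, Fin n → ℂ) M ω).isLocalDiffeomorph

theorem isCoveringMap_id' {M : Type*} [TopologicalSpace M] : IsCoveringMap (id : M → M) := fun x =>
  IsEvenlyCovered.to_isEvenlyCovered_preimage (I := Unit) ⟨inferInstance, Set.univ, trivial,
    isOpen_univ, isOpen_univ, (Homeomorph.prodPUnit (Set.univ : Set M)).symm, fun _ => rfl⟩

theorem lqAt_of_semiample [IsManifold 𝓘(ℂ, Fin n → ℂ) ω M] (hN : IsNormalSpace n j)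
    (h : SemiampleK n j) (x : X) : LqAt n j x := by
  obtain ⟨m, hm, h⟩ := h
  obtain ⟨s, hs, hx⟩ := h x
  exact ⟨M, inferInstance, inferInstance, inferInstance, id, m, 1, s, isCoveringMap_id',
    isLocalDiffeomorph_id, hm, one_pos, hs, fibreLq_id hs, hN.nonzeroAt_id hm hs hx⟩

theorem lqAt_of_massAt [IsManifold 𝓘(ℂ, Fin n → ℂ) ω M] {x : X} (h : MassAt n j x) :
    LqAt n j x := by
  obtain ⟨Y, _, _, _, p, m, η, hcov, hloc, hm, hη, hmass, hnz⟩ := h
  have hm0 : (0 : ℝ) < m := by exact_mod_cast hm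
  exact ⟨Y, inferInstance, inferInstance, inferInstance, p, m, 2 / (m : ℝ), η, hcov, hloc, hm,
    by positivity, hη, fibreLq_of_finiteMass hcov hloc hm hη hmass, hnz⟩

theorem massAt_of_semiample (hF : StmtF.{u}) (hB : StmtB.{u}) [T2Space X] [CompactSpace X]
    [IsManifold 𝓘(ℂ, Fin n → ℂ) ω M] (hN : IsNormalSpace n j)
    (hlt : IsLogTerminal n j) (h : SemiampleK n j) (x : X) : MassAt n j x := by
  classical
  obtain ⟨m, hm, h⟩ := h
  obtain ⟨s, hs, hx⟩ := h x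
  refine ⟨M, inferInstance, inferInstance, inferInstance, id, m, s, isCoveringMap_id',
    isLocalDiffeomorph_id, hm, hs, ?_, hN.nonzeroAt_id hm hs hx⟩
  -- local finiteness of the mass
  have hlocal : ∀ y : X, ∃ V : Set X, V ∈ 𝓝 y ∧ IsOpen V ∧ FiniteMassOn n m (j ⁻¹' V) s := by
    intro y
    obtain ⟨r, U, w, hr, hyU, hw, hmass⟩ := hlt y
    set Ω : Set M := j ⁻¹' U with hΩ
    have hΩo : IsOpen Ω := hw.isOpen.preimage hN.openEmbedding.continuous
    have h1 : IsPluriFormOn n M (m * r) Ω (fun z => s z ^ r) := (pluriForm_on hs Ω).pow r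
    have h2 : IsPluriFormOn n M (r * m) Ω (fun z => w z ^ m) := hw.form.pow m
    rw [mul_comm r m] at h2
    have h3 := hB.1 n M _ _ _ Ω hΩo h1 h2 fun z hz => pow_ne_zero _ (hw.ne_zero z hz)
    obtain ⟨a, ha⟩ := hN.hartogs U _ hw.isOpen h3 y hyU
    have h4 : ∀ᶠ z in comap j (𝓝 y), ‖s z ^ r / w z ^ m‖ < ‖a‖ + 1 :=
      ha.norm.eventually (gt_mem_nhds (lt_add_one _))
    rw [Filter.eventually_comap] at h4
    obtain ⟨V, hV, hVo, hyV⟩ := _root_.mem_nhds_iff.1 (Filter.inter_mem h4 (hw.isOpen.mem_nhds hyU))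
    refine ⟨V, hVo.mem_nhds hyV, hVo, ?_⟩
    refine hF.2 n M m r s w Ω (j ⁻¹' V) (‖a‖ + 1) hm hr (fun z hz => (hV hz).2) hmass ?_
    intro z hz
    have h5 := (hV hz).1 z rfl
    have hwz : w z ≠ 0 := hw.ne_zero z (hV hz).2
    have hwz' : 0 < ‖w z‖ ^ m := pow_pos (norm_pos_iff.2 hwz) m
    rw [norm_div, norm_pow, norm_pow, div_lt_iff₀ hwz'] at h5
    exact h5.le
  choose V hVn hVo hVm using hlocal
  obtain ⟨t, ht⟩ := CompactSpace.elim_nhds_subcover V hVn
  refine hF.1 n M m s X t (fun y => j ⁻¹' V y) (fun y _ => (hVo y).preimage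
    hN.openEmbedding.continuous) ?_ fun y _ => hVm y
  rw [← Set.preimage_iUnion₂, ht]
  rfl

/-- **Main theorem, with the packets as hypotheses.** -/
theorem main (hA : StmtA.{u}) (hG : StmtG.{u}) (hNN : StmtN.{u}) (hF : StmtF.{u}) (hB : StmtB.{u})
    (hD : StmtD.{u}) (n : ℕ) (X M : Type u) [TopologicalSpace X] [T2Space X] [CompactSpace X]
    [TopologicalSpace M] [SecondCountableTopology M] [ChartedSpace (Fin n → ℂ) M]
    [IsManifold 𝓘(ℂ, Fin n → ℂ) ω M] (j : M → X) (hN : IsNormalSpace n j) :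
    (SemiampleK n j ↔ ∀ x, LqAt n j x) ∧
      (IsLogTerminal n j → (SemiampleK n j ↔ ∀ x, MassAt n j x)) := by
  have h1 : (∀ x, LqAt n j x) → SemiampleK n j := fun h =>
    semiample_of_pointwise fun x => exists_form_near hA hG hNN hB hD hN (h x)
  refine ⟨⟨fun h x => lqAt_of_semiample hN h x, h1⟩, fun hlt => ⟨fun h x =>
    massAt_of_semiample hF hB hN hlt h x, fun h => h1 fun x => lqAt_of_massAt (h x)⟩⟩

end Pool.Agent.Helper96.Ab
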