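import Pool.Agent.Helper16.Abund.Semi

/-!
Compact normal complex spaces, through their regular locus.

`M` is a complex manifold of dimension `n` (the regular locus), `X` a compact Hausdorff space and
`j : M → X` an open embedding with dense range. Normality is used in the following form: a
holomorphic function on the regular part of an open subset `U` of `X` has a limit at every point of
`U`.
-/

open scoped Manifold ContDiff ENNReal Topology
open MeasureTheory Filter
open Pool.Agent.Helper16.Abund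

namespace Pool.Agent.Helper96.Ab

universe u

/-- `j : M → X` is the inclusion of the regular locus of a normal complex space: an open embedding
with dense range, such that every holomorphic function on the regular part `j⁻¹(U)` of an open
subset `U` of `X` has a limit at every point of `U`. -/
structure IsNormalSpace (n : ℕ) {X M : Type u} [TopologicalSpace X] [TopologicalSpace M]
    [ChartedSpace (Fin n → ℂ) M] (j : M → X) : Prop where
  openEmbedding : Topology.IsOpenEmbedding j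
  denseRange : DenseRange j
  hartogs : ∀ (U : Set X) (f : M → ℂ), IsOpen U →
    MDifferentiableOn 𝓘(ℂ, Fin n → ℂ) 𝓘(ℂ, ℂ) f (j ⁻¹' U) →
    ∀ x ∈ U, ∃ c : ℂ, Tendsto f (comap j (𝓝 x)) (𝓝 c)

/-- `c` is an `m`-canonical form on the open subset `Ω` of `M` (compare `IsPluriForm`). -/
def IsPluriFormOn (n : ℕ) (M : Type*) [TopologicalSpace M] [ChartedSpace (Fin n → ℂ) M]
    (m : ℕ) (Ω : Set M) (c : M → ℂ) : Prop :=
  ∀ (V : Set (Fin n → ℂ)) (ψ : (Fin n → ℂ) → M), IsOpen V →
    MDifferentiableOn 𝓘(ℂ, Fin n → ℂ) 𝓘(ℂ, Fin n → ℂ) ψ V → Set.MapsTo ψ V Ω →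
    DifferentiableOn ℂ (fun z => c (ψ z) * jac n ψ z ^ m) V

/-- The mass `∫_Ω |η|^{2/m}` of the `m`-canonical form `η` over the open subset `Ω` of `M` is finite
(compare `FiniteMass`). -/
def FiniteMassOn (n : ℕ) {M : Type*} [TopologicalSpace M] [ChartedSpace (Fin n → ℂ) M]
    (m : ℕ) (Ω : Set M) (η : M → ℂ) : Prop :=
  ∃ C : ℝ, ∀ (N : ℕ) (V : Fin N → Set (Fin n → ℂ)) (ψ : Fin N → (Fin n → ℂ) → M),
    (∀ i, IsOpen (V i)) →
    (∀ i, MDifferentiableOn 𝓘(ℂ, Fin n → ℂ) 𝓘(ℂ, Fin n → ℂ) (ψ i) (V i)) →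
    (∀ i, Set.MapsTo (ψ i) (V i) Ω) →
    (∀ i, Set.InjOn (ψ i) (V i)) →
    (Pairwise fun i j => Disjoint (ψ i '' V i) (ψ j '' V j)) →
    ∑ i, ∫⁻ z in V i, ENNReal.ofReal (‖η (ψ i z) * jac n (ψ i) z ^ m‖ ^ (2 / (m : ℝ)))
      ≤ ENNReal.ofReal C

/-- `w` is a nowhere zero `r`-canonical form on the regular part of the open subset `U` of `X`: a
generator of `r K_X` over `U`, so that `r K_X` is Cartier on `U`. -/
structure IsGen (n : ℕ) {X M : Type u} [TopologicalSpace X] [TopologicalSpace M]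
    [ChartedSpace (Fin n → ℂ) M] (j : M → X) (r : ℕ) (U : Set X) (w : M → ℂ) : Prop where
  isOpen : IsOpen U
  form : IsPluriFormOn n M r (j ⁻¹' U) w
  ne_zero : ∀ z ∈ j ⁻¹' U, w z ≠ 0

/-- `X` has log terminal singularities: every point has a neighbourhood `U` over which some `r K_X`,
`r ≥ 1`, has a generator `w` with `∫ |w|^{2/r}` finite over the regular part of `U`. -/
def IsLogTerminal (n : ℕ) {X M : Type u} [TopologicalSpace X] [TopologicalSpace M]
    [ChartedSpace (Fin n → ℂ) M] (j : M → X) : Prop :=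
  ∀ x : X, ∃ (r : ℕ) (U : Set X) (w : M → ℂ), 1 ≤ r ∧ x ∈ U ∧ IsGen n j r U w ∧
    FiniteMassOn n r (j ⁻¹' U) w

/-- The canonical divisor of `X` is semiample: for some `m ≥ 1`, near every point `x` of `X` some
`m`-canonical form of the regular locus has no zeros (so `m K_X` is Cartier and base point free). -/
def SemiampleK (n : ℕ) {X M : Type u} [TopologicalSpace X] [TopologicalSpace M]
    [ChartedSpace (Fin n → ℂ) M] (j : M → X) : Prop :=
  ∃ m : ℕ, 1 ≤ m ∧ ∀ x : X, ∃ s : M → ℂ, IsPluriForm n M m s ∧ ∀ᶠ z in comap j (𝓝 x), s z ≠ 0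

/-- The `m`-canonical form `η` on the covering `p : Y → M` of the regular locus does not tend to zero
at the point `x` of `X`: with a generator `w` of some `r K_X` near `x`, the function
`|η^r / (p^* w)^m|` does not tend to zero at the points of `Y` over points `z → x`. -/
def NonzeroAt (n : ℕ) {X M Y : Type u} [TopologicalSpace X] [TopologicalSpace M]
    [ChartedSpace (Fin n → ℂ) M] [TopologicalSpace Y] [ChartedSpace (Fin n → ℂ) Y] (j : M → X)
    (p : Y → M) (m : ℕ) (η : Y → ℂ) (x : X) : Prop :=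
  ∃ (r : ℕ) (U : Set X) (w : M → ℂ) (c : ℝ), 1 ≤ r ∧ x ∈ U ∧ IsGen n j r U w ∧ 0 < c ∧
    ∃ᶠ z in comap j (𝓝 x), ∃ y, p y = z ∧ c * ‖w z‖ ^ m ≤ ‖η y / jac n p y ^ m‖ ^ r

/-- Some covering `p : Y → M` of the regular locus of `X` by a complex manifold `Y` (finite or
infinite, Galois or not, connected or not, ramified over the singular points or not) carries an
`m`-canonical form `η`, `m ≥ 1`, which does not tend to zero at `x` and which is in `L^q` over the
regular locus, for some `0 < q < ∞`. Nothing is assumed on the size of `η` near the singular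
points. -/
def LqAt (n : ℕ) {X M : Type u} [TopologicalSpace X] [TopologicalSpace M]
    [ChartedSpace (Fin n → ℂ) M] (j : M → X) (x : X) : Prop :=
  ∃ (Y : Type u) (_ : TopologicalSpace Y) (_ : ChartedSpace (Fin n → ℂ) Y)
    (_ : IsManifold 𝓘(ℂ, Fin n → ℂ) ω Y) (p : Y → M) (m : ℕ) (q : ℝ) (η : Y → ℂ),
    IsCoveringMap p ∧ IsLocalDiffeomorph 𝓘(ℂ, Fin n → ℂ) 𝓘(ℂ, Fin n → ℂ) ω p ∧
      1 ≤ m ∧ 0 < q ∧ IsPluriForm n Y m η ∧ FibreLq n p m q η ∧ NonzeroAt n j p m η x

/-- The same with an `m`-canonical form `η` on `Y` of finite total mass `∫ |η|^{2/m}`. -/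
def MassAt (n : ℕ) {X M : Type u} [TopologicalSpace X] [TopologicalSpace M]
    [ChartedSpace (Fin n → ℂ) M] (j : M → X) (x : X) : Prop :=
  ∃ (Y : Type u) (_ : TopologicalSpace Y) (_ : ChartedSpace (Fin n → ℂ) Y)
    (_ : IsManifold 𝓘(ℂ, Fin n → ℂ) ω Y) (p : Y → M) (m : ℕ) (η : Y → ℂ),
    IsCoveringMap p ∧ IsLocalDiffeomorph 𝓘(ℂ, Fin n → ℂ) 𝓘(ℂ, Fin n → ℂ) ω p ∧
      1 ≤ m ∧ IsPluriForm n Y m η ∧ FiniteMass n m η ∧ NonzeroAt n j p m η x

end Pool.Agent.Helper96.Ab
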