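import Pool.Agent.Helper96.Ab.Defs

/-! Packets for the normal version. -/

open scoped Manifold ContDiff ENNReal Topology
open MeasureTheory Filter
open Pool.Agent.Helper16.Abund

namespace Pool.Agent.Helper96.Ab

universe u

/-- **Packet A** (Mathlib only). The coefficients of `∏ (1 + b_i t)` for summable `b`, defined from
the power sums by Newton's recursion. -/
def StmtA : Prop :=
  ∀ (ι : Type u) (b : ι → ℂ) (E : ℕ → ℂ), Summable b → E 0 = 1 →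
    (∀ j, E (j + 1) = (1 / ((j : ℂ) + 1)) *
      ∑ i ∈ Finset.range (j + 1), (-1) ^ i * E (j - i) * ∑' a, b a ^ (i + 1)) →
    (∀ (R : ℝ), 0 ≤ R → ∀ j, ‖E j‖ * R ^ j ≤ Real.exp (R * ∑' a, ‖b a‖)) ∧
    (∀ a, b a ≠ 0 → ∑' j, E j * (-1 / b a) ^ j = 0)

/-- **Packet G** (Mathlib only). Gliding hump. -/
def StmtG : Prop :=
  ∀ (M : Type u) (κ : ℕ → Set M) (𝒪 : Set (M → ℂ)) (T : Set M),
    (∀ i, κ i ⊆ κ (i + 1)) →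
    T ⊆ ⋃ i, κ i →
    (∀ f ∈ 𝒪, ∀ k : ℕ, (fun z => f z ^ k) ∈ 𝒪) →
    (∀ f ∈ 𝒪, ∀ c : ℂ, (fun z => c * f z) ∈ 𝒪) →
    (∀ g : ℕ → M → ℂ, (∀ i, g i ∈ 𝒪) → (∀ i, ∀ z ∈ κ i, ‖g i z‖ ≤ (1 / 2 : ℝ) ^ i) →
      (fun z => ∑' i, g i z) ∈ 𝒪) →
    (∀ f ∈ 𝒪, ∃ B : ℝ, ∀ z ∈ T, ‖f z‖ ≤ B) →
    ∃ i, ∀ f ∈ 𝒪, ∀ B : ℝ, 0 ≤ B → (∀ z ∈ κ i, ‖f z‖ ≤ B) → ∀ z ∈ T, ‖f z‖ ≤ B

/-- **Packet N** (Mathlib only). If the coefficients tend to zero with a uniform super-geometric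
bound, then the entire functions have no small zeros. -/
def StmtN : Prop :=
  ∀ (M : Type u) (F : Filter M) (E : ℕ → M → ℂ) (T D : ℝ), 0 < T →
    (∀ z, E 0 z = 1) → (∀ j, Tendsto (E (j + 1)) F (𝓝 0)) →
    (∀ᶠ z in F, ∀ j, ‖E j z‖ * (2 * T) ^ j ≤ D) →
    ∀ᶠ z in F, ∀ t : ℂ, ‖t‖ ≤ T → ∑' j, E j z * t ^ j ≠ 0

/-- **Packet F**. Masses. -/
def StmtF : Prop :=
  (∀ (n : ℕ) (M : Type u) [TopologicalSpace M] [ChartedSpace (Fin n → ℂ) M]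
    [IsManifold 𝓘(ℂ, Fin n → ℂ) ω M] (m : ℕ) (η : M → ℂ) (ι : Type u) (t : Finset ι)
    (Ω : ι → Set M), (∀ a ∈ t, IsOpen (Ω a)) → (⋃ a ∈ t, Ω a) = Set.univ →
    (∀ a ∈ t, FiniteMassOn n m (Ω a) η) → FiniteMass n m η) ∧
  (∀ (n : ℕ) (M : Type u) [TopologicalSpace M] [ChartedSpace (Fin n → ℂ) M]
    [IsManifold 𝓘(ℂ, Fin n → ℂ) ω M] (m r : ℕ) (s w : M → ℂ) (Ω Ω' : Set M) (C : ℝ),
    1 ≤ m → 1 ≤ r → Ω' ⊆ Ω → FiniteMassOn n r Ω w →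
    (∀ z ∈ Ω', ‖s z‖ ^ r ≤ C * ‖w z‖ ^ m) → FiniteMassOn n m Ω' s)

/-- **Packet B**. Quotients of forms, and locally uniform sums, are holomorphic. -/
def StmtB : Prop :=
  (∀ (n : ℕ) (M : Type u) [TopologicalSpace M] [ChartedSpace (Fin n → ℂ) M]
    [IsManifold 𝓘(ℂ, Fin n → ℂ) ω M] (m : ℕ) (s w : M → ℂ) (Ω : Set M), IsOpen Ω →
    IsPluriFormOn n M m Ω s → IsPluriFormOn n M m Ω w → (∀ z ∈ Ω, w z ≠ 0) →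
    MDifferentiableOn 𝓘(ℂ, Fin n → ℂ) 𝓘(ℂ, ℂ) (fun z => s z / w z) Ω) ∧
  (∀ (n : ℕ) (M : Type u) [TopologicalSpace M] [ChartedSpace (Fin n → ℂ) M]
    [IsManifold 𝓘(ℂ, Fin n → ℂ) ω M] (g : ℕ → M → ℂ) (Ω : Set M), IsOpen Ω →
    (∀ i, MDifferentiableOn 𝓘(ℂ, Fin n → ℂ) 𝓘(ℂ, ℂ) (g i) Ω) →
    (∀ z ∈ Ω, ∃ W, IsOpen W ∧ z ∈ W ∧ W ⊆ Ω ∧ ∃ u : ℕ → ℝ, Summable u ∧
      ∀ i, ∀ y ∈ W, ‖g i y‖ ≤ u i) →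
    MDifferentiableOn 𝓘(ℂ, Fin n → ℂ) 𝓘(ℂ, ℂ) (fun z => ∑' i, g i z) Ω)

/-- **Packet D**. Local `ℓ¹` bound for the values `b(y) = η(y)^L / w(p y)^l` over the points of the
fibres of `p`. -/
def StmtD : Prop :=
  ∀ (n : ℕ) (M Y : Type u) [TopologicalSpace M] [ChartedSpace (Fin n → ℂ) M]
    [IsManifold 𝓘(ℂ, Fin n → ℂ) ω M] [TopologicalSpace Y] [ChartedSpace (Fin n → ℂ) Y]
    [IsManifold 𝓘(ℂ, Fin n → ℂ) ω Y] (p : Y → M) (m r L l : ℕ) (q : ℝ) (η : Y → ℂ) (w : M → ℂ)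
    (Ω : Set M), IsCoveringMap p → IsLocalDiffeomorph 𝓘(ℂ, Fin n → ℂ) 𝓘(ℂ, Fin n → ℂ) ω p →
    0 < q → q ≤ L → r * l = m * L → IsPluriForm n Y m η → FibreLq n p m q η → IsOpen Ω →
    IsPluriFormOn n M r Ω w → (∀ z ∈ Ω, w z ≠ 0) →
    ∀ z₀ ∈ Ω, ∃ W, IsOpen W ∧ z₀ ∈ W ∧ W ⊆ Ω ∧ ∃ A : ℝ, ∀ z ∈ W,
      (Summable fun y : p ⁻¹' {z} => (η y / jac n p y.1 ^ m) ^ L / w z ^ l) ∧
      ∑' y : p ⁻¹' {z}, ‖(η y / jac n p y.1 ^ m) ^ L / w z ^ l‖ ≤ A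

end Pool.Agent.Helper96.Ab
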