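import Pool.Agent.Helper96.Ab.Defs
import Pool.Agent.Helper10.Abund.Pullback

/-! Packet T for the normal version: pull back of a form of finite mass. -/

open scoped Manifold ContDiff ENNReal Topology
open MeasureTheory Filter
open Pool.Agent.Helper16.Abund

namespace Pool.Agent.Helper96.Ab

universe u

/-- **Packet T**. The pull back of an `m`-canonical form of finite mass under a holomorphic map with
fibres of at most `N` points has finite mass. -/
def StmtT : Prop :=
  ∀ (n m N : ℕ) (Y Z : Type u) [TopologicalSpace Y] [ChartedSpace (Fin n → ℂ) Y]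
    [IsManifold 𝓘(ℂ, Fin n → ℂ) ω Y] [TopologicalSpace Z] [T2Space Z] [SecondCountableTopology Z]
    [ChartedSpace (Fin n → ℂ) Z] [IsManifold 𝓘(ℂ, Fin n → ℂ) ω Z] (g : Y → Z) (s : Z → ℂ),
    1 ≤ m → MDifferentiable 𝓘(ℂ, Fin n → ℂ) 𝓘(ℂ, Fin n → ℂ) g →
    (∀ z : Z, (g ⁻¹' {z}).encard ≤ N) → IsPluriForm n Z m s → FiniteMass n m s →
    FiniteMass n m (fun y => s (g y) * jac n g y ^ m)

end Pool.Agent.Helper96.Ab
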