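import Pool.Agent.Helper96.Ab.Max

/-! A form on a covering of the regular locus, `L^q` over the regular locus and not tending to zero
at `x`, gives a pluricanonical form of the regular locus without zeros near `x`. -/

open scoped Manifold ContDiff ENNReal Topology
open MeasureTheory Filter
open Pool.Agent.Helper16.Abund

namespace Pool.Agent.Helper96.Ab

universe u

/-- Newton's recursion for the elementary symmetric functions. -/
noncomputable def newtonE (P : ℕ → ℂ) : ℕ → ℂ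
  | 0 => 1
  | (j + 1) => (1 / ((j : ℂ) + 1)) * ∑ i : Fin (j + 1), (-1) ^ (i : ℕ) * newtonE P (j - i) * P (i + 1)
termination_by k => k
decreasing_by omega

theorem newtonE_zero (P : ℕ → ℂ) : newtonE P 0 = 1 := by rw [newtonE]

theorem newtonE_succ (P : ℕ → ℂ) (j : ℕ) : newtonE P (j + 1) = (1 / ((j : ℂ) + 1)) *
    ∑ i ∈ Finset.range (j + 1), (-1) ^ i * newtonE P (j - i) * P (i + 1) := by
  rw [newtonE, Finset.sum_range]

variable {n : ℕ} {X M : Type u} [TopologicalSpace X] [TopologicalSpace M]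
    [ChartedSpace (Fin n → ℂ) M] {j : M → X}

theorem newtonE_hol {Ω : Set M} {P : ℕ → M → ℂ}
    (hP : ∀ k, MDifferentiableOn 𝓘(ℂ, Fin n → ℂ) 𝓘(ℂ, ℂ) (P (k + 1)) Ω) (k : ℕ) :
    MDifferentiableOn 𝓘(ℂ, Fin n → ℂ) 𝓘(ℂ, ℂ) (fun z => newtonE (fun l => P l z) k) Ω := by
  induction k using Nat.strong_induction_on with
  | _ k ih =>
    rcases k with _ | k
    · simp only [newtonE_zero]
      exact mdifferentiableOn_const
    · simp only [newtonE_succ]
      refine (mdifferentiableOn_const (c := (1 / ((k : ℂ) + 1)))).mul ?_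
      have : (fun z => ∑ i ∈ Finset.range (k + 1),
          (-1) ^ i * newtonE (fun l => P l z) (k - i) * P (i + 1) z) =
          ∑ i ∈ Finset.range (k + 1), fun z =>
            (-1) ^ i * newtonE (fun l => P l z) (k - i) * P (i + 1) z := by
        funext z
        simp
      change MDifferentiableOn 𝓘(ℂ, Fin n → ℂ) 𝓘(ℂ, ℂ) (fun z => ∑ i ∈ Finset.range (k + 1),
          (-1) ^ i * newtonE (fun l => P l z) (k - i) * P (i + 1) z) Ω
      rw [this]
      refine MDifferentiableOn.sum fun i hi => ?_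
      have hi' : i < k + 1 := Finset.mem_range.1 hi
      exact ((mdifferentiableOn_const (c := ((-1 : ℂ) ^ i))).mul (ih (k - i) (by omega))).mul (hP i)

omit [TopologicalSpace M] in
theorem newtonE_tendsto {F : Filter M} {P : ℕ → M → ℂ}
    (hP : ∀ k, Tendsto (P (k + 1)) F (𝓝 0)) (k : ℕ) :
    Tendsto (fun z => newtonE (fun l => P l z) (k + 1)) F (𝓝 0) := by
  induction k using Nat.strong_induction_on with
  | _ k ih =>
    simp only [newtonE_succ]
    have h1 : Tendsto (fun z => ∑ i ∈ Finset.range (k + 1),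
        (-1) ^ i * newtonE (fun l => P l z) (k - i) * P (i + 1) z) F
        (𝓝 (∑ i ∈ Finset.range (k + 1), 0)) := by
      refine tendsto_finsetSum _ fun i hi => ?_
      have hi' : i < k + 1 := Finset.mem_range.1 hi
      rcases Nat.eq_or_lt_of_le (Nat.lt_succ_iff.1 hi') with h | h
      · subst h
        simp only [Nat.sub_self, newtonE_zero]
        simpa using (hP i).const_mul ((-1 : ℂ) ^ i)
      · obtain ⟨l, hl⟩ : ∃ l, k - i = l + 1 := ⟨k - i - 1, by omega⟩
        rw [hl]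
        have := ((ih l (by omega)).const_mul ((-1 : ℂ) ^ i)).mul (hP i)
        simpa using this
    simpa using h1.const_mul (1 / ((k : ℂ) + 1))

theorem pluriForm_on {m : ℕ} {c : M → ℂ} (hc : IsPluriForm n M m c) (Ω : Set M) :
    IsPluriFormOn n M m Ω c := fun V ψ hV hψ _ => hc V ψ hV hψ

theorem IsPluriFormOn.pow {m : ℕ} {Ω : Set M} {c : M → ℂ} (hc : IsPluriFormOn n M m Ω c) (k : ℕ) :
    IsPluriFormOn n M (m * k) Ω (fun x => c x ^ k) := by
  intro V ψ hV hψ hm
  have := (hc V ψ hV hψ hm).pow k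
  refine this.congr fun z _ => ?_
  simp only [Pi.pow_apply]
  rw [pow_mul, mul_pow]

/-- **Local theorem.** -/
theorem exists_form_near (hA : StmtA.{u}) (hG : StmtG.{u}) (hNN : StmtN.{u}) (hB : StmtB.{u})
    (hD : StmtD.{u}) [T2Space X] [CompactSpace X]
    [IsManifold 𝓘(ℂ, Fin n → ℂ) ω M] [SecondCountableTopology M] (hN : IsNormalSpace n j)
    {x : X} (h : LqAt n j x) :
    ∃ ℓ : ℕ, 1 ≤ ℓ ∧ ∃ s : M → ℂ, IsPluriForm n M ℓ s ∧ ∀ᶠ z in comap j (𝓝 x), s z ≠ 0 := by
  classical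
  obtain ⟨Y, _, _, _, p, m, q, η, hcov, hloc, hm, hq, hη, hLq, r, U, w, c, hr, hxU, hw, hc, hfr⟩ := h
  -- the exponents
  set K : ℕ := ⌈q⌉₊ + 1 with hK
  have hK1 : 1 ≤ K := by omega
  have hqK : q ≤ K := by
    calc q ≤ (⌈q⌉₊ : ℝ) := Nat.le_ceil q
      _ ≤ K := by rw [hK]; push_cast; linarith
  have hqrK : q ≤ ((r * K : ℕ) : ℝ) := by
    refine hqK.trans ?_
    exact_mod_cast Nat.le_mul_of_pos_left K hr
  set Ω : Set M := j ⁻¹' U with hΩ
  have hΩo : IsOpen Ω := hw.isOpen.preimage hN.openEmbedding.continuous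
  -- the values along the fibres
  let b : (z : M) → (p ⁻¹' {z}) → ℂ := fun z y => (η y / jac n p y.1 ^ m) ^ (r * K) / w z ^ (m * K)
  let P : ℕ → M → ℂ := fun k z => ∑' y, b z y ^ k
  have hPe : ∀ k z, P k z = trace n p m (r * K * k) η z / w z ^ (m * K * k) := by
    intro k z
    simp only [P, b, trace]
    rw [← tsum_div_const]
    congr 1
    funext y
    rw [div_pow, ← pow_mul, ← pow_mul]
  have hloc1 : ∀ z₀ ∈ Ω, ∃ W, IsOpen W ∧ z₀ ∈ W ∧ W ⊆ Ω ∧ ∃ A : ℝ, ∀ z ∈ W,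
      (Summable fun y : p ⁻¹' {z} => b z y) ∧ ∑' y : p ⁻¹' {z}, ‖b z y‖ ≤ A :=
    hD n M Y p m r (r * K) (m * K) q η w Ω hcov hloc hq hqrK (by ring) hη hLq hΩo hw.form hw.ne_zero
  have hbs : ∀ z ∈ Ω, Summable (b z) := by
    intro z hz
    obtain ⟨W, -, hzW, -, A, hA⟩ := hloc1 z hz
    exact (hA z hzW).1
  have hPform : ∀ k, IsPluriForm n M (m * (r * K * (k + 1))) (trace n p m (r * K * (k + 1)) η) := by
    intro k
    apply isPluriForm_trace hcov hloc hη hq hLq
    refine hqrK.trans ?_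
    exact_mod_cast Nat.le_mul_of_pos_right _ (Nat.succ_pos k)
  have hPhol : ∀ k, MDifferentiableOn 𝓘(ℂ, Fin n → ℂ) 𝓘(ℂ, ℂ) (P (k + 1)) Ω := by
    intro k
    have h1 : IsPluriFormOn n M (r * (m * K * (k + 1))) Ω (fun z => w z ^ (m * K * (k + 1))) :=
      hw.form.pow _
    have h2 : r * (m * K * (k + 1)) = m * (r * K * (k + 1)) := by ring
    rw [h2] at h1
    have := hB.1 n M _ _ _ Ω hΩo (pluriForm_on (hPform k) Ω) h1 fun z hz => pow_ne_zero _ (hw.ne_zero z hz)
    exact this.congr fun z _ => hPe _ z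
  -- the elementary symmetric functions
  let E : ℕ → M → ℂ := fun k z => newtonE (fun l => P l z) k
  have hEhol : ∀ k, MDifferentiableOn 𝓘(ℂ, Fin n → ℂ) 𝓘(ℂ, ℂ) (E k) Ω := fun k =>
    newtonE_hol hPhol k
  have hE : ∀ z ∈ Ω, (∀ (R : ℝ), 0 ≤ R → ∀ k, ‖E k z‖ * R ^ k ≤ Real.exp (R * ∑' a, ‖b z a‖)) ∧
      (∀ a, b z a ≠ 0 → ∑' k, E k z * (-1 / b z a) ^ k = 0) := by
    intro z hz
    exact hA (p ⁻¹' {z}) (b z) (fun k => E k z) (hbs z hz) (newtonE_zero _) fun k =>
      newtonE_succ (fun l => P l z) k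
  -- some power sum does not tend to zero
  have hex : ∃ k, ¬ Tendsto (P (k + 1)) (comap j (𝓝 x)) (𝓝 0) := by
    by_contra hcon
    push Not at hcon
    have hE0 : ∀ k, Tendsto (E (k + 1)) (comap j (𝓝 x)) (𝓝 0) := fun k =>
      newtonE_tendsto hcon k
    obtain ⟨U', hU'o, hxU', hU'U, Kc, hKc, hKΩ, hmax⟩ := hN.max hG hB hw.isOpen hxU
    -- uniform bound on the compact set
    obtain ⟨A, hAb⟩ : ∃ A : ℝ, ∀ z ∈ Kc, ∑' y, ‖b z y‖ ≤ A := by
      refine hKc.induction_on (p := fun S => ∃ A : ℝ, ∀ z ∈ S, ∑' y, ‖b z y‖ ≤ A) ?_ ?_ ?_ ?_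
      · exact ⟨0, fun z hz => absurd hz (Set.notMem_empty _)⟩
      · rintro s t hst ⟨B, hB⟩
        exact ⟨B, fun z hz => hB z (hst hz)⟩
      · rintro s t ⟨B, hB⟩ ⟨B', hB'⟩
        refine ⟨max B B', fun z hz => ?_⟩
        rcases hz with hz | hz
        · exact (hB z hz).trans (le_max_left _ _)
        · exact (hB' z hz).trans (le_max_right _ _)
      · intro z hz
        obtain ⟨W, hWo, hzW, -, A, hA⟩ := hloc1 z (hKΩ hz)
        exact ⟨W, mem_nhdsWithin_of_mem_nhds (hWo.mem_nhds hzW), A, fun y hy => (hA y hy).2⟩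
    set T : ℝ := 1 / c ^ K with hT
    have hT0 : 0 < T := by positivity
    have hbound : ∀ z ∈ j ⁻¹' U', ∀ k, ‖E k z‖ * (2 * T) ^ k ≤ Real.exp (2 * T * A) := by
      intro z hz k
      have h2T : 0 < (2 * T) ^ k := by positivity
      have h1 : ∀ y ∈ Kc, ‖E k y‖ ≤ Real.exp (2 * T * A) / (2 * T) ^ k := by
        intro y hy
        rw [le_div_iff₀ h2T]
        refine ((hE y (hKΩ hy)).1 (2 * T) (by positivity) k).trans ?_
        apply Real.exp_le_exp.2
        exact mul_le_mul_of_nonneg_left (hAb y hy) (by positivity)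
      have h2 := hmax (E k) (hEhol k) _ (by positivity) h1 z hz
      rwa [le_div_iff₀ h2T] at h2
    have hev := hNN M (comap j (𝓝 x)) E T (Real.exp (2 * T * A)) hT0 (fun z => newtonE_zero _) hE0
      (by
        have : j ⁻¹' U' ∈ comap j (𝓝 x) := preimage_mem_comap (hU'o.mem_nhds hxU')
        filter_upwards [this] with z hz
        exact hbound z hz)
    have hUev : ∀ᶠ z in comap j (𝓝 x), z ∈ Ω := preimage_mem_comap (hw.isOpen.mem_nhds hxU)
    obtain ⟨z, ⟨y, hyz, hcy⟩, hz1, hz2⟩ := (hfr.and_eventually (hev.and hUev)).exists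
    have hwz : w z ≠ 0 := hw.ne_zero z hz2
    have hwz' : 0 < ‖w z‖ := norm_pos_iff.2 hwz
    have hby : c ^ K ≤ ‖b z ⟨y, hyz⟩‖ := by
      simp only [b]
      rw [norm_div, norm_pow, norm_pow, le_div_iff₀ (by positivity), pow_mul, pow_mul, ← mul_pow]
      exact pow_le_pow_left₀ (by positivity) hcy K
    have hb0 : 0 < ‖b z ⟨y, hyz⟩‖ := lt_of_lt_of_le (by positivity) hby
    refine hz1 (-1 / b z ⟨y, hyz⟩) ?_ ((hE z hz2).2 ⟨y, hyz⟩ (norm_pos_iff.1 hb0))
    rw [norm_div, norm_neg, norm_one, hT]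
    exact one_div_le_one_div_of_le (by positivity) hby
  obtain ⟨k, hk⟩ := hex
  obtain ⟨a, ha⟩ := hN.hartogs U _ hw.isOpen (hPhol k) x hxU
  have ha0 : a ≠ 0 := by
    rintro rfl
    exact hk ha
  refine ⟨m * (r * K * (k + 1)), Nat.mul_pos hm (Nat.mul_pos (Nat.mul_pos hr hK1) (Nat.succ_pos k)),
    trace n p m (r * K * (k + 1)) η, hPform k, ?_⟩
  filter_upwards [ha.eventually_ne ha0] with z hz h0
  apply hz
  rw [hPe, h0, zero_div]

end Pool.Agent.Helper96.Ab
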