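import Pool.Agent.Helper96.Ab.Goals

/-! The maximum property of normal spaces, from the extension property, by the gliding hump. -/

open scoped Manifold ContDiff ENNReal Topology
open MeasureTheory Filter
open Pool.Agent.Helper16.Abund

namespace Pool.Agent.Helper96.Ab

universe u

variable {n : ℕ} {X M : Type u} [TopologicalSpace X] [TopologicalSpace M]
    [ChartedSpace (Fin n → ℂ) M] {j : M → X}

/-- holomorphic functions on the regular part of `U` are bounded over compact subsets of `U` -/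
theorem IsNormalSpace.bounded (hN : IsNormalSpace n j) {U : Set X} (hU : IsOpen U) {f : M → ℂ}
    (hf : MDifferentiableOn 𝓘(ℂ, Fin n → ℂ) 𝓘(ℂ, ℂ) f (j ⁻¹' U)) {K : Set X} (hK : IsCompact K)
    (hKU : K ⊆ U) : ∃ B : ℝ, ∀ z, j z ∈ K → ‖f z‖ ≤ B := by
  refine hK.induction_on (p := fun S => ∃ B : ℝ, ∀ z, j z ∈ S → ‖f z‖ ≤ B) ?_ ?_ ?_ ?_
  · exact ⟨0, fun z hz => absurd hz (Set.notMem_empty _)⟩
  · rintro s t hst ⟨B, hB⟩
    exact ⟨B, fun z hz => hB z (hst hz)⟩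
  · rintro s t ⟨B, hB⟩ ⟨B', hB'⟩
    refine ⟨max B B', fun z hz => ?_⟩
    rcases hz with hz | hz
    · exact (hB z hz).trans (le_max_left _ _)
    · exact (hB' z hz).trans (le_max_right _ _)
  · intro x hx
    obtain ⟨c, hc⟩ := hN.hartogs U f hU hf x (hKU hx)
    have h1 : ∀ᶠ z in comap j (𝓝 x), ‖f z‖ < ‖c‖ + 1 :=
      hc.norm.eventually (gt_mem_nhds (lt_add_one _))
    rw [Filter.eventually_comap] at h1
    refine ⟨{y | ∀ a, j a = y → ‖f a‖ < ‖c‖ + 1}, mem_nhdsWithin_of_mem_nhds h1, ‖c‖ + 1, ?_⟩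
    intro z hz
    exact (hz z rfl).le

theorem IsNormalSpace.max (hG : StmtG.{u}) (hB : StmtB.{u}) [T2Space X] [CompactSpace X]
    [IsManifold 𝓘(ℂ, Fin n → ℂ) ω M] [SecondCountableTopology M] (hN : IsNormalSpace n j)
    {U : Set X} (hU : IsOpen U) {x : X} (hx : x ∈ U) :
    ∃ U' : Set X, IsOpen U' ∧ x ∈ U' ∧ U' ⊆ U ∧ ∃ K : Set M, IsCompact K ∧ K ⊆ j ⁻¹' U ∧
      ∀ f : M → ℂ, MDifferentiableOn 𝓘(ℂ, Fin n → ℂ) 𝓘(ℂ, ℂ) f (j ⁻¹' U) → ∀ B : ℝ, 0 ≤ B →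
        (∀ z ∈ K, ‖f z‖ ≤ B) → ∀ z ∈ j ⁻¹' U', ‖f z‖ ≤ B := by
  have : LocallyCompactSpace M := ChartedSpace.locallyCompactSpace (Fin n → ℂ) M
  obtain ⟨U₁, hU₁n, hU₁c, hU₁U⟩ := exists_mem_nhds_isClosed_subset (hU.mem_nhds hx)
  set Ω : Set M := j ⁻¹' U with hΩ
  have hΩo : IsOpen Ω := hU.preimage hN.openEmbedding.continuous
  have : LocallyCompactSpace Ω := hΩo.locallyCompactSpace
  have : SigmaCompactSpace Ω := sigmaCompactSpace_of_locallyCompact_secondCountable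
  let ex : CompactExhaustion Ω := CompactExhaustion.choice Ω
  let κ : ℕ → Set M := fun i => Subtype.val '' (ex i : Set Ω)
  have hκc : ∀ i, IsCompact (κ i) := fun i => (ex.isCompact i).image continuous_subtype_val
  have hκm : ∀ i, κ i ⊆ κ (i + 1) := fun i => Set.image_mono (ex.subset_succ i)
  have hκΩ : ∀ i, κ i ⊆ Ω := by
    rintro i _ ⟨y, -, rfl⟩
    exact y.2
  have hκn : ∀ z ∈ Ω, ∃ i, ∃ W, IsOpen W ∧ z ∈ W ∧ W ⊆ κ i := by
    intro z hz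
    obtain ⟨i, hi⟩ := ex.exists_mem ⟨z, hz⟩
    refine ⟨i + 1, Subtype.val '' (interior (ex (i + 1) : Set Ω)), ?_, ?_, ?_⟩
    · exact hΩo.isOpenEmbedding_subtypeVal.isOpenMap _ isOpen_interior
    · exact ⟨⟨z, hz⟩, ex.subset_interior_succ i hi, rfl⟩
    · exact Set.image_mono interior_subset
  let 𝒪 : Set (M → ℂ) := {f | MDifferentiableOn 𝓘(ℂ, Fin n → ℂ) 𝓘(ℂ, ℂ) f Ω}
  have key := hG M κ 𝒪 (j ⁻¹' U₁) hκm ?_ ?_ ?_ ?_ ?_
  · obtain ⟨i, hi⟩ := key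
    refine ⟨interior U₁, isOpen_interior, mem_interior_iff_mem_nhds.2 hU₁n,
      interior_subset.trans hU₁U, κ i, hκc i, hκΩ i, ?_⟩
    intro f hf B hB0 hfB z hz
    exact hi f hf B hB0 hfB z (Set.preimage_mono interior_subset hz)
  · intro z hz
    obtain ⟨i, W, -, hzW, hWi⟩ := hκn z (hU₁U hz)
    exact Set.mem_iUnion.2 ⟨i, hWi hzW⟩
  · intro f hf k
    have hf' : MDifferentiableOn 𝓘(ℂ, Fin n → ℂ) 𝓘(ℂ, ℂ) f Ω := hf
    exact hf'.pow k
  · intro f hf c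
    have hf' : MDifferentiableOn 𝓘(ℂ, Fin n → ℂ) 𝓘(ℂ, ℂ) f Ω := hf
    change MDifferentiableOn 𝓘(ℂ, Fin n → ℂ) 𝓘(ℂ, ℂ) (fun z => c * f z) Ω
    exact (mdifferentiableOn_const (c := c)).mul hf'
  · intro g hg hgb
    refine hB.2 n M g Ω hΩo hg ?_
    intro z hz
    obtain ⟨i₀, W, hWo, hzW, hWi⟩ := hκn z hz
    have hbd : ∀ i, ∃ B : ℝ, ∀ y ∈ κ i₀, ‖g i y‖ ≤ B := by
      intro i
      have hgi : MDifferentiableOn 𝓘(ℂ, Fin n → ℂ) 𝓘(ℂ, ℂ) (g i) Ω := hg i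
      exact (hκc i₀).exists_bound_of_continuousOn (hgi.continuousOn.mono (hκΩ i₀))
    choose Bd hBd using hbd
    refine ⟨W, hWo, hzW, hWi.trans (hκΩ i₀), fun i => if i < i₀ then Bd i else (1 / 2 : ℝ) ^ i,
      ?_, ?_⟩
    · refine (summable_nat_add_iff i₀).1 ?_
      have h1 : Summable fun i : ℕ => (1 / 2 : ℝ) ^ (i + i₀) :=
        (summable_nat_add_iff i₀).2 summable_geometric_two
      refine h1.congr fun i => ?_
      rw [if_neg (by omega)]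
    · intro i y hy
      have hyi := hWi hy
      dsimp only
      split_ifs with h
      · exact hBd i y hyi
      · apply hgb i y
        have hmono : Monotone κ := monotone_nat_of_le_succ hκm
        exact hmono (not_lt.1 h) hyi
  · intro f hf
    obtain ⟨B, hBf⟩ := hN.bounded hU (K := U₁) hf hU₁c.isCompact hU₁U
    exact ⟨B, fun z hz => hBf z hz⟩

end Pool.Agent.Helper96.Ab
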